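import Mathlib
import Pool.Agent.Q90.UScaled
import Pool.Agent.Q90.ShiftOps

/-!
# Stable rank one does not pass from the asymptotic sequence algebra to its factors

Banach algebras are complex and unital here, with a submultiplicative norm and `‖1‖ = 1`.
-/

set_option autoImplicit false

namespace Pool.Agent.Results.MP_c26838_an.StableRankFactors

open Filter Topology
open scoped ENNReal

/-- A unital Banach algebra (a monoid under multiplication, with its norm topology) has stable
rank one: its invertible elements are norm-dense. -/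
def HasStableRankOne (B : Type) [Monoid B] [TopologicalSpace B] : Prop := Dense {x : B | IsUnit x}

section Defs

variable (A : ℕ → Type) [∀ n, NormedRing (A n)] [∀ n, NormOneClass (A n)]

/-- `ℓ^∞(A n)`: the normed ring of the bounded sequences `x` with `x n ∈ A n`, with pointwise
operations and the supremum norm (Mathlib's `lp A ∞`). -/
abbrev LInf : Type := lp A ∞

variable {A} in
/-- The `n`-th term `x n ∈ A n` of `x ∈ ℓ^∞(A n)`. -/
def LInf.term (x : LInf A) (n : ℕ) : A n := (show lp A ∞ from x) n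

theorem norm_term_le (x : LInf A) (n : ℕ) : ‖x.term n‖ ≤ ‖x‖ :=
  lp.norm_apply_le_norm (by simp) (show lp A ∞ from x) n

theorem norm_le_of_term {x : LInf A} {C : ℝ} (hC : 0 ≤ C) (h : ∀ n, ‖x.term n‖ ≤ C) : ‖x‖ ≤ C :=
  lp.norm_le_of_forall_le (f := (show lp A ∞ from x)) hC h

/-- `c₀(A n)`: the two-sided ideal of the sequences `x` in `ℓ^∞(A n)` with `‖x n‖ → 0`. -/
def c0 : Ideal (LInf A) where
  carrier := {x | Tendsto (fun n => ‖x.term n‖) atTop (𝓝 0)}
  zero_mem' := by
    change Tendsto (fun n => ‖(0 : A n)‖) atTop (𝓝 0)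
    simp
  add_mem' := by
    intro x y hx hy
    refine squeeze_zero (fun n => norm_nonneg _) (fun n => ?_) (by simpa using hx.add hy)
    exact norm_add_le (x.term n) (y.term n)
  smul_mem' := by
    intro c x hx
    refine squeeze_zero (fun n => norm_nonneg _) (fun n => ?_) (by simpa using hx.const_mul ‖c‖)
    change ‖c.term n * x.term n‖ ≤ ‖c‖ * ‖x.term n‖
    exact (norm_mul_le _ _).trans
      (mul_le_mul_of_nonneg_right (norm_term_le A c n) (norm_nonneg _))

theorem mem_c0 {x : LInf A} : x ∈ c0 A ↔ Tendsto (fun n => ‖x.term n‖) atTop (𝓝 0) := Iff.rfl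

instance : (c0 A).IsTwoSided where
  mul_mem_of_left := by
    intro x c hx
    refine squeeze_zero (fun n => norm_nonneg _) (fun n => ?_) (by simpa using hx.mul_const ‖c‖)
    change ‖x.term n * c.term n‖ ≤ ‖x.term n‖ * ‖c‖
    exact (norm_mul_le _ _).trans
      (mul_le_mul_of_nonneg_left (norm_term_le A c n) (norm_nonneg _))

/-- The asymptotic sequence algebra `Asy(A n) = ℓ^∞(A n) / c₀(A n)`: Mathlib's quotient ring, with
Mathlib's quotient norm, which is `limsup ‖x n‖`, see `norm_mk_eq_limsup`. -/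
abbrev Asy : Type := LInf A ⧸ c0 A

/-- The norm of `Asy(A n)` is `‖π(x)‖ = limsup ‖x n‖`. -/
theorem norm_mk_eq_limsup (x : LInf A) :
    ‖(Ideal.Quotient.mk (c0 A) x : Asy A)‖ = limsup (fun n => ‖x.term n‖) atTop := by
  have hb : ∀ x : LInf A, IsBoundedUnder (· ≤ ·) atTop (fun n => ‖x.term n‖) := fun x =>
    isBoundedUnder_of ⟨‖x‖, fun n => norm_term_le A x n⟩
  have hc : ∀ x : LInf A, IsCoboundedUnder (· ≤ ·) atTop (fun n => ‖x.term n‖) := fun x =>
    (isBoundedUnder_of ⟨0, fun n => norm_nonneg _⟩ : IsBoundedUnder (· ≥ ·) atTop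
      (fun n => ‖x.term n‖)).isCoboundedUnder_le
  apply le_antisymm
  · refine le_of_forall_pos_le_add fun ε hε => ?_
    have h1 : ∀ᶠ n in atTop, ‖x.term n‖ < limsup (fun n => ‖x.term n‖) atTop + ε :=
      eventually_lt_of_limsup_lt (by linarith) (hb x)
    obtain ⟨N, hN⟩ := eventually_atTop.1 h1
    set L := limsup (fun n => ‖x.term n‖) atTop with hL
    have hL0 : 0 ≤ L := le_limsup_of_frequently_le (Eventually.frequently
      (Eventually.of_forall fun n => norm_nonneg _)) (hb x)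
    have hz : Memℓp (fun n => if N ≤ n then x.term n else 0) ∞ := by
      rw [memℓp_infty_iff]
      refine ⟨‖x‖, ?_⟩
      rintro _ ⟨n, rfl⟩
      dsimp only
      split_ifs
      · exact norm_term_le A x n
      · simp
    let z : LInf A := (⟨_, hz⟩ : lp A ∞)
    have hzn : ∀ n, z.term n = if N ≤ n then x.term n else 0 := fun n => rfl
    have h2 : (Ideal.Quotient.mk (c0 A) x : Asy A) = Submodule.Quotient.mk z := by
      refine (Submodule.Quotient.eq (c0 A)).2 ?_
      rw [mem_c0]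
      refine Tendsto.congr' ?_ tendsto_const_nhds
      filter_upwards [eventually_ge_atTop N] with n hn
      change 0 = ‖x.term n - z.term n‖
      rw [hzn, if_pos hn, sub_self, norm_zero]
    rw [h2]
    refine (Submodule.Quotient.norm_mk_le (c0 A) z).trans ?_
    refine norm_le_of_term A (by linarith) fun n => ?_
    rw [hzn]
    split_ifs with h
    · exact (hN n h).le
    · rw [norm_zero]
      linarith
  · refine le_of_forall_pos_le_add fun ε hε => ?_
    obtain ⟨y, hy, hlt⟩ := Submodule.Quotient.norm_mk_lt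
      (Ideal.Quotient.mk (c0 A) x : Asy A) hε
    have h1 : x - y ∈ c0 A := (Submodule.Quotient.eq (c0 A)).1 hy.symm
    rw [mem_c0] at h1
    refine le_trans ?_ hlt.le
    refine le_of_forall_pos_le_add fun δ hδ => ?_
    refine limsup_le_of_le (hc x) ?_
    filter_upwards [h1.eventually (gt_mem_nhds hδ)] with n hn
    have h2 : ‖y.term n‖ ≤ ‖y‖ := norm_term_le A y n
    have h3 : ‖x.term n‖ ≤ ‖(x - y).term n‖ + ‖y.term n‖ := by
      have h4 := norm_add_le ((x - y).term n) (y.term n)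
      have h5 : (x - y).term n + y.term n = x.term n := by
        change x.term n - y.term n + y.term n = x.term n
        abel
      rwa [h5] at h4
    linarith

end Defs

/-- The weights `n + 1`. -/
def wt (n : ℕ) : {K : ℝ // 1 ≤ K} := ⟨n + 1, by linarith [n.cast_nonneg (α := ℝ)]⟩

section Example

variable (B : Type) [NormedRing B] [NormedAlgebra ℂ B] [CompleteSpace B]

/-- The example: the algebra `ℂ ⊕ B` (unitization of `B`) with the norm `|l| + (n + 1) ‖b‖`. -/
abbrev Ex (n : ℕ) : Type := Q90.UScaled (wt n) B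

instance (n : ℕ) : NormOneClass (Ex B n) := ⟨Q90.UScaled.norm_one⟩

open Q90.UScaled in
theorem asy_ex : HasStableRankOne (Asy (Ex B)) := by
  unfold HasStableRankOne
  rw [Metric.dense_iff]
  intro z r hr
  obtain ⟨x, rfl⟩ := Ideal.Quotient.mk_surjective z
  choose l b hx using fun n => exists_mk (x.term n)
  have hnx : ∀ n, ‖x.term n‖ = ‖l n‖ + (n + 1) * ‖b n‖ := by
    intro n
    rw [hx n, norm_mk]
    rfl
  have hbd : ∀ n, ‖l n‖ + (n + 1) * ‖b n‖ ≤ ‖x‖ := fun n =>
    hnx n ▸ norm_term_le (Ex B) x n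
  -- the perturbed scalars
  set ε := r / 2 with hε
  have hε0 : 0 < ε := half_pos hr
  have h1 : ∀ n, ∃ m : ℂ, ε / 2 ≤ ‖m‖ ∧ ‖l n - m‖ ≤ ε := by
    intro n
    by_cases h : ε / 2 ≤ ‖l n‖
    · exact ⟨l n, h, by simpa using hε0.le⟩
    · push Not at h
      refine ⟨((ε / 2 : ℝ) : ℂ), ?_, ?_⟩
      · rw [Complex.norm_real, Real.norm_eq_abs, abs_of_pos (by linarith)]
      · refine (norm_sub_le _ _).trans ?_
        rw [Complex.norm_real, Real.norm_eq_abs, abs_of_pos (by linarith)]
        linarith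
  choose m hm1 hm2 using h1
  -- the perturbed sequence
  have hu : Memℓp (fun n => (mk (wt n) (m n) (b n) : Ex B n)) ∞ := by
    rw [memℓp_infty_iff]
    refine ⟨‖x‖ + ε, ?_⟩
    rintro _ ⟨n, rfl⟩
    dsimp only
    rw [norm_mk]
    have e1 : ‖m n‖ ≤ ‖l n‖ + ε := by
      have := norm_sub_norm_le (m n) (l n)
      rw [norm_sub_rev] at this
      linarith [hm2 n]
    have e2 := hbd n
    change ‖m n‖ + ((n : ℝ) + 1) * ‖b n‖ ≤ _
    linarith
  let u : LInf (Ex B) := (⟨_, hu⟩ : lp (Ex B) ∞)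
  have hun : ∀ n, u.term n = mk (wt n) (m n) (b n) := fun n => rfl
  -- the inverses
  have h2 : ∀ᶠ n : ℕ in atTop, ‖x‖ / (ε / 2 / 2) ≤ n := tendsto_natCast_atTop_atTop.eventually_ge_atTop _
  obtain ⟨N, hN⟩ := eventually_atTop.1 h2
  have h3 : ∀ n, ∃ v : Ex B n, ‖v‖ ≤ 1 / (ε / 2) + 2 / (ε / 2) ^ 2 * ‖x‖ ∧
      (N ≤ n → u.term n * v = 1 ∧ v * u.term n = 1) := by
    intro n
    by_cases hn : N ≤ n
    · have e1 : ‖b n‖ ≤ ε / 2 / 2 := by
        have e2 := hN n hn
        rw [div_le_iff₀ (by positivity)] at e2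
        have e3 := hbd n
        have e4 : ((n : ℝ) + 1) * ‖b n‖ ≤ (n + 1) * (ε / 2 / 2) := by
          linarith [norm_nonneg (l n)]
        exact le_of_mul_le_mul_left e4 (by positivity)
      obtain ⟨v, hv1, hv2, hv3⟩ := exists_inv (K := wt n) (B := B) (half_pos hε0) (hm1 n) e1
      refine ⟨v, hv3.trans ?_, fun _ => ⟨hv1, hv2⟩⟩
      have e5 : ((wt n : {K : ℝ // 1 ≤ K}) : ℝ) * ‖b n‖ ≤ ‖x‖ := by
        change ((n : ℝ) + 1) * ‖b n‖ ≤ _
        linarith [hbd n, norm_nonneg (l n)]
      have e6 : 2 / (ε / 2) ^ 2 * (((wt n : {K : ℝ // 1 ≤ K}) : ℝ) * ‖b n‖) ≤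
          2 / (ε / 2) ^ 2 * ‖x‖ := mul_le_mul_of_nonneg_left e5 (by positivity)
      linarith
    · refine ⟨0, ?_, fun h => absurd h hn⟩
      rw [norm_zero]
      positivity
  choose v hv1 hv2 using h3
  have hv : Memℓp v ∞ := by
    rw [memℓp_infty_iff]
    refine ⟨1 / (ε / 2) + 2 / (ε / 2) ^ 2 * ‖x‖, ?_⟩
    rintro _ ⟨n, rfl⟩
    exact hv1 n
  let V : LInf (Ex B) := (⟨v, hv⟩ : lp (Ex B) ∞)
  have hVn : ∀ n, V.term n = v n := fun n => rfl
  have huV : Ideal.Quotient.mk (c0 (Ex B)) u * Ideal.Quotient.mk (c0 (Ex B)) V = 1 := by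
    rw [← map_mul, ← map_one (Ideal.Quotient.mk (c0 (Ex B))), Ideal.Quotient.eq, mem_c0]
    refine Tendsto.congr' ?_ tendsto_const_nhds
    filter_upwards [eventually_ge_atTop N] with n hn
    change 0 = ‖u.term n * V.term n - 1‖
    rw [hVn, (hv2 n hn).1, sub_self, norm_zero]
  have hVu : Ideal.Quotient.mk (c0 (Ex B)) V * Ideal.Quotient.mk (c0 (Ex B)) u = 1 := by
    rw [← map_mul, ← map_one (Ideal.Quotient.mk (c0 (Ex B))), Ideal.Quotient.eq, mem_c0]
    refine Tendsto.congr' ?_ tendsto_const_nhds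
    filter_upwards [eventually_ge_atTop N] with n hn
    change 0 = ‖V.term n * u.term n - 1‖
    rw [hVn, (hv2 n hn).2, sub_self, norm_zero]
  refine ⟨Ideal.Quotient.mk (c0 (Ex B)) u, ?_, ⟨⟨_, _, huV, hVu⟩, rfl⟩⟩
  rw [Metric.mem_ball, dist_comm, dist_eq_norm]
  have h4 : ‖x - u‖ ≤ ε := by
    refine norm_le_of_term (Ex B) hε0.le fun n => ?_
    change ‖x.term n - u.term n‖ ≤ ε
    rw [hx n, hun, mk_sub, norm_mk, sub_self, norm_zero, mul_zero, add_zero]
    exact hm2 n
  have h5 : ‖Ideal.Quotient.mk (c0 (Ex B)) x - Ideal.Quotient.mk (c0 (Ex B)) u‖ ≤ ‖x - u‖ :=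
    Submodule.Quotient.norm_mk_le (c0 (Ex B)) (x - u)
  linarith

end Example

/-- In a Banach algebra of stable rank one, `a b = 1` implies `b a = 1`. -/
theorem mul_eq_one_comm_of_stableRankOne {B : Type} [NormedRing B] [CompleteSpace B]
    (h : HasStableRankOne B) {a b : B} (hab : a * b = 1) : b * a = 1 := by
  by_cases ha : a = 0
  · rw [ha, zero_mul] at hab
    have : Subsingleton B := subsingleton_of_zero_eq_one hab
    exact Subsingleton.elim _ _
  have ha0 : 0 < ‖a‖ := norm_pos_iff.2 ha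
  unfold HasStableRankOne at h
  rw [Metric.dense_iff] at h
  obtain ⟨u, hu1, hu2⟩ := h b (1 / ‖a‖) (by positivity)
  rw [Metric.mem_ball, dist_comm, dist_eq_norm] at hu1
  have h1 : ‖a * (b - u)‖ < 1 := by
    refine (norm_mul_le _ _).trans_lt ?_
    have := mul_lt_mul_of_pos_left hu1 ha0
    rwa [mul_one_div_cancel ha0.ne'] at this
  have h2 : IsUnit (a * u) := by
    have h3 : a * u = (Units.oneSub _ h1 : Bˣ) := by
      change a * u = 1 - a * (b - u)
      rw [mul_sub, hab]
      abel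
    rw [h3]
    exact Units.isUnit _
  obtain ⟨w, rfl⟩ := hu2
  have h4 : IsUnit a := by
    have h5 := h2.mul (Units.isUnit w⁻¹)
    rwa [mul_assoc, Units.mul_inv, mul_one] at h5
  obtain ⟨c, rfl⟩ := h4
  have h6 : b = ((c⁻¹ : Bˣ) : B) := by
    rw [← one_mul b, ← Units.inv_mul c, mul_assoc, hab, mul_one]
  rw [h6, Units.inv_mul]

theorem general (B : Type) [NormedRing B] [NormedAlgebra ℂ B] [CompleteSpace B] [NormOneClass B]
    {a b : B} (h1 : a * b = 1) (h2 : b * a ≠ 1) :
    ∃ (A : ℕ → Type) (_ : ∀ n, NormedRing (A n)) (_ : ∀ n, NormedAlgebra ℂ (A n))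
      (_ : ∀ n, CompleteSpace (A n)) (_ : ∀ n, NormOneClass (A n)),
      HasStableRankOne (Asy A) ∧ ∀ n, ¬ HasStableRankOne (A n) :=
  ⟨Ex B, fun _ => inferInstance, fun _ => inferInstance, fun _ => inferInstance,
    fun _ => inferInstance, asy_ex B, fun n h => h2 (mul_eq_one_comm_of_stableRankOne
      (Q90.UScaled.dense_of_dense (B := B) h) h1)⟩

/-- **Stable rank one does not pass from `Asy(A n)` to the factors** (negative answer to Q1).

There is a sequence `(A n)` of complex unital Banach algebras with `‖1‖ = 1` such that the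
asymptotic sequence algebra `Asy(A n)` has stable rank one, although no `A n` has stable rank
one. -/
theorem result :
    ∃ (A : ℕ → Type) (_ : ∀ n, NormedRing (A n)) (_ : ∀ n, NormedAlgebra ℂ (A n))
      (_ : ∀ n, CompleteSpace (A n)) (_ : ∀ n, NormOneClass (A n)),
      HasStableRankOne (Asy A) ∧ ∀ n, ¬ HasStableRankOne (A n) :=
  general Q90.BL Q90.BL.LR Q90.BL.RL

end Pool.Agent.Results.MP_c26838_an.StableRankFactors
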